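import Pool.Agent.R804.TypeB.Main

/-!
# The smallest relative term of type B sequences

`min_{d ∈ B_n} (min_i d_i) / (∑_j d_j) = 1 / 2^(n-1)` for every `n ≥ 1`.
-/

set_option autoImplicit false

namespace Pool.Agent.Results.MP_739a3c_co.SmallestTermB

open Pool.Agent.R804.TypeB

/-- The minimum over `B_n` of (smallest term) / (sum of the terms) is `1 / 2^(n-1)`; moreover
`∑_j d_j ≤ 2^(n-1) d_i` for every real type B sequence `d` and every index `i`. -/
theorem result (n : ℕ) (hn : 1 ≤ n) :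
    IsLeast {x : ℝ | ∃ d ∈ BB n, ∃ i, (∀ j, d i ≤ d j) ∧ x = (d i : ℝ) / ∑ j, (d j : ℝ)}
      (1 / 2 ^ (n - 1)) ∧
    ∀ d : Fin n → ℝ, IsTypeB d → ∀ i, ∑ j, d j ≤ 2 ^ (n - 1) * d i :=
  ⟨isLeast_main n hn, fun _ hd i => main_ineq hd i⟩

end Pool.Agent.Results.MP_739a3c_co.SmallestTermB
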